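import Pool.Agent.Helper28.TK.StK

/-!
# Project TK, module KRC: equal eigenvalues give proportional forms, weight k
-/

set_option autoImplicit false

namespace Pool.Agent.Helper88.TK

open Pool.Agent.Helper28.TK Pool.Agent.Helper14.WK

theorem hKRC : StKRC := by
  intro _ N _ k f g p _ h1 hf hg hf3 hg3 m
  induction m using Nat.strong_induction_on with
  | _ m ih =>
    by_cases h3 : p ∣ m
    · obtain ⟨k', rfl⟩ := h3
      rw [hf3, hg3, mul_zero]
    by_cases hm1 : m = 1
    · subst hm1
      rw [h1, mul_one]
    have hm0 : m ≠ 0 := by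
      rintro rfl
      exact h3 (dvd_zero p)
    have hl : (m.minFac).Prime := Nat.minFac_prime hm1
    have hlm : m.minFac ∣ m := Nat.minFac_dvd m
    have hl3 : m.minFac ≠ p := by
      intro h
      exact h3 (h ▸ hlm)
    obtain ⟨m', hm'⟩ := hlm
    generalize hle : m.minFac = l at hl hl3 hm'
    subst hm'
    have hm'0 : 0 < m' := by
      rcases Nat.eq_zero_or_pos m' with h | h
      · subst h
        simp at hm0
      · exact h
    have hlt : m' < l * m' := by
      calc m' = 1 * m' := (one_mul m').symm
        _ < l * m' := Nat.mul_lt_mul_of_pos_right hl.one_lt hm'0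
    have e1 := ih m' hlt
    have e2 := ih (m' / l) (lt_of_le_of_lt (Nat.div_le_self m' l) hlt)
    have H1 := hf l hl hl3 m'
    have H2 := hg l hl hl3 m'
    rw [e1, e2] at H2
    by_cases hd : l ∣ m'
    · rw [if_pos hd] at H1 H2
      linear_combination H2 - fcK g 1 * H1
    · rw [if_neg hd] at H1 H2
      linear_combination H2 - fcK g 1 * H1

end Pool.Agent.Helper88.TK
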