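import Pool.Agent.Helper4.TK.StD

/-!
# Project TK, module REL: the relation between the three plane functions of a symbol
-/

set_option autoImplicit false

namespace Pool.Agent.Helper88.TK

open Pool.Agent.Helper4.TK
open Pool.Agent.Helper14.CV (Homog)
open Pool.Agent.Helper14.W5 (tr5)

/-- Scalar multiples of the vector do not matter. -/
private lemma rel_sc {R : Type} {G : ℤ → ℤ → R} (hG : Homog G) (X Y k u1 u2 : ℤ) (hk : k ≠ 0)
    (hu : u1 ≠ 0 ∨ u2 ≠ 0) :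
    G (k * u1 + X * (k * u2)) (5 * Y * (k * u1) + (1 + 5 * X * Y) * (k * u2)) =
      G (u1 + X * u2) (5 * Y * u1 + (1 + 5 * X * Y) * u2) := by
  have hne : (1 * u1 + X * u2 ≠ 0 ∨ (5 * Y) * u1 + (1 + 5 * X * Y) * u2 ≠ 0) :=
    Pool.Agent.Helper14.CV.ne_zero_of_det (a := 1) (b := X) (c := 5 * Y) (d := 1 + 5 * X * Y)
      (by ring_nf; norm_num) hu
  rw [one_mul] at hne
  rw [← hG k _ _ hk hne]
  congr 1 <;> ring

/-- REL: the plane functions of a symbol satisfy the relation. -/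
theorem hRel (ht : TTre) : TRel := by
  intro R _ r s G hG
  have k0 : (pfK G 0 : ZMod (5 ^ r) → ZMod (5 ^ s) → R) = edgeK 1 0 0 1 G := by
    funext x y; rfl
  have k1 : (pfK G 1 : ZMod (5 ^ r) → ZMod (5 ^ s) → R) = edgeK 1 3 0 1 G := by
    funext x y; rfl
  have k2 : (pfK G 2 : ZMod (5 ^ r) → ZMod (5 ^ s) → R) = edgeK 1 2 0 1 G := by
    funext x y; rfl
  have kk : (hK (fun i => (pfK G i : ZMod (5 ^ r) → ZMod (5 ^ s) → R))) = edgeK 1 2 1 3 G := by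
    funext x y
    show (pfK G 2 : ZMod (5 ^ r) → ZMod (5 ^ s) → R) x y - (pfK G 1 : ZMod (5 ^ r) → ZMod (5 ^ s) → R) x y = _
    rw [k1, k2]
    unfold edgeK
    abel
  intro x y
  have h0 := ht R _ r s G hG 1 1 0 1 1 0 0 1 (by unfold KTy; decide) (by simp) (by simp) x y
  have h1 := ht R _ r s G hG 9 (-2) 3 (-3) 1 3 0 1 (by unfold KTy; decide) (by simp) (by simp) x y
  have h2 := ht R _ r s G hG 12 (-5) 3 (-6) 1 2 1 3 (by unfold KTy; decide) (by simp) (by simp) x y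
  have n1 := rel_sc hG.1 (x.val : ℤ) (yK x y) 3 1 2 (by norm_num) (by simp)
  have n2 := rel_sc hG.1 (x.val : ℤ) (yK x y) (-1) 2 3 (by norm_num) (by simp)
  have n3 := rel_sc hG.1 (x.val : ℤ) (yK x y) (-3) 1 1 (by norm_num) (by simp)
  show (pfK G 0 : ZMod (5 ^ r) → ZMod (5 ^ s) → R) x y - tr5 1 1 0 1 (pfK G 0) x y -
    ((pfK G 1 : ZMod (5 ^ r) → ZMod (5 ^ s) → R) x y - tr5 9 (-2) 3 (-3) (pfK G 1) x y) -
    (hK (fun i => (pfK G i : ZMod (5 ^ r) → ZMod (5 ^ s) → R)) x y -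
      tr5 12 (-5) 3 (-6) (hK (fun i => (pfK G i : ZMod (5 ^ r) → ZMod (5 ^ s) → R))) x y) = 0
  rw [kk, k0, k1, ← h0, ← h1, ← h2]
  unfold edgeK
  norm_num at n1 n2 n3 ⊢
  rw [n1, n2, n3]
  abel

end Pool.Agent.Helper88.TK
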