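import Pool.Agent.Helper4.TK.StD

/-!
# Project TK, module RLL: the relation as operators
-/

set_option autoImplicit false

namespace Pool.Agent.Helper88.TK

open Pool.Agent.Helper4.TK
open Pool.Agent.Helper14.W5 (tr5 Fn5 Tm opL op5)

private lemma tr_one {q q' : ℕ} (F : Fn5 q q') : tr5 1 0 0 1 F = F := by
  funext x y
  unfold tr5
  simp

/-- RLL: the relation as operators. -/
theorem hRll : TRll := by
  intro r s F hF
  have hop : ∀ (a b c d : ℤ) (G : Fn5 (5 ^ r) (5 ^ s)) (x : ZMod (5 ^ r)) (y : ZMod (5 ^ s)),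
      op5 a b c d G x y = tr5 a b c d G x y := fun _ _ _ _ _ _ _ => rfl
  have hsub : ∀ (a b c d : ℤ) (x : ZMod (5 ^ r)) (y : ZMod (5 ^ s)),
      tr5 a b c d (hK F) x y = tr5 a b c d (F 2) x y - tr5 a b c d (F 1) x y := fun _ _ _ _ _ _ => rfl
  have hk : ∀ (x : ZMod (5 ^ r)) (y : ZMod (5 ^ s)), hK F x y = F 2 x y - F 1 x y := fun _ _ => rfl
  funext x y
  have g := hF x y
  rw [hsub, hk] at g
  rw [Fin.sum_univ_three]
  simp [relK, opL, hop, tr_one]
  linear_combination g

end Pool.Agent.Helper88.TK
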