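import Pool.Agent.Helper4.TK.StD

/-!
# Project TK: module TRE (values on translated paths)
-/

set_option autoImplicit false

namespace Pool.Agent.Helper88.TK

open Pool.Agent.Helper4.TK
open Pool.Agent.Helper14.W5 (tr5)

private lemma unit_of {r : ℕ} {a : ℤ} (e : ℤ) (h : ∃ p q : ℤ, a * p + 5 * q = 1) :
    IsUnit ((a : ZMod (5 ^ r)) + 5 * e) := by
  have h1 : ((a : ZMod (5 ^ r)) + 5 * e) = ((a + 5 * e : ℤ) : ZMod (5 ^ r)) := by push_cast; ring
  rw [h1, ZMod.coe_int_isUnit_iff_isCoprime]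
  push_cast
  apply IsCoprime.pow_left
  obtain ⟨p, q, hpq⟩ := h
  exact ⟨q - e * p, p, by linear_combination hpq⟩

private lemma cop {a b c d : ℤ} (h : KTy a b (5 * c) d) :
    (∃ p q : ℤ, a * p + 5 * q = 1) ∧ (∃ p q : ℤ, d * p + 5 * q = 1) := by
  rcases h with ⟨h, -⟩ | ⟨h, -⟩
  · exact ⟨⟨d, -(b * c), by linear_combination h⟩, ⟨a, -(b * c), by linear_combination h⟩⟩
  · exact ⟨⟨2 * d, -(2 * b * c) - 1, by linear_combination 2 * h⟩,
      ⟨2 * a, -(2 * b * c) - 1, by linear_combination 2 * h⟩⟩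

/-- MODULE TRE -/
theorem hTre (he : TEdg) (hp : TPlK) : TTre := by
  intro R _ r s G hG a b c d u1 u2 v1 v2 hT hu hv x y
  obtain ⟨⟨-, -, h3⟩, hev⟩ := hp r s x y
  set X : ℤ := (x.val : ℤ) with hX
  set Y : ℤ := yK x y with hY
  have hx : ((X : ℤ) : ZMod (5 ^ r)) = x := by
    rw [hX]
    simp
  have hyv : ((y.val : ℤ) : ZMod (5 ^ s)) = y := by
    simp
  have ua : IsUnit ((a : ZMod (5 ^ r)) + 5 * c * x) := by
    have := unit_of (r := r) (a := a) (c * X) (cop hT).1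
    rw [Int.cast_mul, hx, ← mul_assoc] at this
    exact this
  have ud : IsUnit ((d : ZMod (5 ^ s)) + 5 * b * y) := by
    have := unit_of (r := s) (a := d) (b * (y.val : ℤ)) (cop hT).2
    rw [Int.cast_mul, hyv, ← mul_assoc] at this
    exact this
  have hP : PlK (a + 5 * X * c) (b + X * d) (Y * a + c * (1 + 5 * X * Y)) (5 * Y * b + d * (1 + 5 * X * Y))
      ((((b : ℤ) : ZMod (5 ^ r)) + ((d : ℤ) : ZMod (5 ^ r)) * x) *
        (((a : ℤ) : ZMod (5 ^ r)) + 5 * ((c : ℤ) : ZMod (5 ^ r)) * x)⁻¹)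
      ((((c : ℤ) : ZMod (5 ^ s)) + ((a : ℤ) : ZMod (5 ^ s)) * y) *
        (((d : ℤ) : ZMod (5 ^ s)) + 5 * ((b : ℤ) : ZMod (5 ^ s)) * y)⁻¹) := by
    refine ⟨?_, ?_, ?_⟩
    · obtain ⟨Z, hZ⟩ := hev
      rcases hT with ⟨h1, ⟨e, he⟩⟩ | ⟨h1, ⟨e1, he1⟩, ⟨e2, he2⟩, ⟨e3, he3⟩⟩
      · refine Or.inl ⟨by linear_combination h1, 5 * Z * a + e * (1 + 5 * X * Y), ?_⟩
        linear_combination (5 * a) * hZ + (1 + 5 * X * Y) * he
      · refine Or.inr ⟨by linear_combination h1, ⟨e1 + X * e2, ?_⟩,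
          ⟨5 * Z * a + e2 * (1 + 5 * X * Y), ?_⟩, ⟨5 * Z * b + e3 * (1 + 5 * X * Y), ?_⟩⟩
        · linear_combination he1 + X * he2
        · linear_combination (5 * a) * hZ + (1 + 5 * X * Y) * he2
        · linear_combination (5 * b) * hZ + (1 + 5 * X * Y) * he3
    · push_cast
      rw [hx]
      have e := ZMod.mul_inv_of_unit _ ua
      linear_combination (-((b : ZMod (5 ^ r)) + d * x)) * e
    · have e := ZMod.mul_inv_of_unit _ ud
      have h3' : ((Y : ℤ) : ZMod (5 ^ s)) = y * (1 + 5 * X * Y) := by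
        refine h3.trans ?_
        push_cast
        ring
      push_cast
      linear_combination (-((c : ZMod (5 ^ s)) + a * y) * (1 + 5 * X * Y)) * e +
        ((a : ZMod (5 ^ s)) - ((c : ZMod (5 ^ s)) + a * y) * ((d : ZMod (5 ^ s)) + 5 * b * y)⁻¹ * 5 * b) * h3'
  have hE := he R _ r s G hG u1 u2 v1 v2 hu hv _ _ _ _ _ _ hP
  show _ = edgeK u1 u2 v1 v2 G _ _
  rw [hE]
  unfold edgeK
  rw [← hX, ← hY]
  congr 2 <;> ring

end Pool.Agent.Helper88.TK
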